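import Pool.Agent.Lib.MP_524519_ag.DU5.REG.Coef

/-! # LD: the multiplicity -/

set_option autoImplicit false
set_option linter.unusedSectionVars false

namespace Pool.Agent.DU5.LD

open MvPowerSeries REG

variable {F : Type} [Field F]

/-- A series without monomials `x_0^i`, `i < d`, is in `(x_0^d, x_1, x_2)`; the coefficient of
`x_0^d` is a series with constant coefficient `r_(d,0,0)`. -/
theorem decomp (r : O F 3) (d : ℕ) (hr : ∀ i < d, coeff (e3 i 0 0) r = 0) :
    ∃ u v w : O F 3, r = X 0 ^ d * u + X 1 * v + X 2 * w ∧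
      constantCoeff u = coeff (e3 d 0 0) r := by
  classical
  let rA : O F 3 := fun e => if e 1 = 0 then 0 else coeff e r
  let rB : O F 3 := fun e => if e 1 = 0 ∧ e 2 ≠ 0 then coeff e r else 0
  let rC : O F 3 := fun e => if e 1 = 0 ∧ e 2 = 0 then coeff e r else 0
  have hA : ∀ e, coeff e rA = if e 1 = 0 then 0 else coeff e r := fun e => rfl
  have hB : ∀ e, coeff e rB = if e 1 = 0 ∧ e 2 ≠ 0 then coeff e r else 0 := fun e => rfl
  have hC : ∀ e, coeff e rC = if e 1 = 0 ∧ e 2 = 0 then coeff e r else 0 := fun e => rfl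
  have h1 : (X 1 : O F 3) ∣ rA := by
    rw [X_dvd_iff]
    intro m hm
    rw [hA, if_pos hm]
  have h2 : (X 2 : O F 3) ∣ rB := by
    rw [X_dvd_iff]
    intro m hm
    rw [hB, if_neg]
    rintro ⟨_, h⟩
    exact h hm
  have h3 : (X 0 : O F 3) ^ d ∣ rC := by
    rw [X_pow_dvd_iff]
    intro m hm
    rw [hC]
    split_ifs with h
    · have : m = e3 (m 0) 0 0 := by
        apply ext3 <;> simp [h.1, h.2]
      rw [this]
      exact hr _ hm
    · rfl
  obtain ⟨v, hv⟩ := h1
  obtain ⟨w, hw⟩ := h2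
  obtain ⟨u, hu⟩ := h3
  refine ⟨u, v, w, ?_, ?_⟩
  · rw [← hv, ← hw, ← hu]
    ext e
    rw [map_add, map_add, hA, hB, hC]
    by_cases h1 : e 1 = 0 <;> by_cases h2 : e 2 = 0 <;> simp [h1, h2]
  · have h4 : coeff (e3 d 0 0) rC = coeff (e3 d 0 0) r := by
      rw [hC, if_pos]
      simp
    rw [← h4, hu, X_pow_eq]
    have h5 : e3 d 0 0 = Finsupp.single 0 d + 0 := by
      apply ext3 <;> simp
    rw [h5, coeff_add_monomial_mul, one_mul, coeff_zero_eq_constantCoeff]

theorem coeff_single_sum (r : O F 3) (d : ℕ) (i : ℕ) (hi : i < d) :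
    coeff (e3 i 0 0) (∑ j ∈ Finset.range d, C (coeff (e3 j 0 0) r) * (X 0 : O F 3) ^ j) =
      coeff (e3 i 0 0) r := by
  classical
  rw [map_sum, Finset.sum_eq_single i]
  · rw [coeff_C_mul, coeff_X_pow, if_pos, mul_one]
    apply ext3 <;> simp
  · intro j _ hj
    rw [coeff_C_mul, coeff_X_pow, if_neg, mul_zero]
    intro h
    have := congrArg (fun e => e 0) h
    simp at this
    exact hj this.symm
  · intro h
    exact absurd (Finset.mem_range.mpr hi) h

/-- **LD.** -/
theorem ld : LDStatement := by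
  intro k _ F _ _ lam d f hf
  set I : Ideal (O F 3) := Ideal.span {bc k F f, X 2 - C lam * X 1, (X 1 : O F 3)} with hI
  have hf' : bc k F f ∈ I := Ideal.subset_span (by simp)
  have h1 : (X 1 : O F 3) ∈ I := Ideal.subset_span (by simp)
  have h21 : (X 2 - C lam * X 1 : O F 3) ∈ I := Ideal.subset_span (by simp)
  have h2 : (X 2 : O F 3) ∈ I := by
    have := I.add_mem h21 (I.mul_mem_left (C lam) h1)
    rwa [sub_add_cancel] at this
  have hcf : ∀ e, coeff e (bc k F f) = algebraMap k F (coeff e f) := fun e => rfl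
  have h0 : (X 0 : O F 3) ^ d ∈ I := by
    obtain ⟨u, v, w, h, hu⟩ := decomp (bc k F f) d (by
      intro i hi
      rw [hcf, hf.low, map_zero]
      simpa using hi)
    have h3 : e3 d 0 0 = Finsupp.single 0 d := by
      apply ext3 <;> simp
    have hunit : IsUnit u := by
      rw [isUnit_iff_constantCoeff, hu, hcf, h3, isUnit_iff_ne_zero]
      intro h0
      exact hf.top ((_root_.map_eq_zero (algebraMap k F)).mp h0)
    obtain ⟨u', hu'⟩ := hunit.exists_right_inv
    have h4 : (X 0 : O F 3) ^ d * u ∈ I := by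
      have : (X 0 : O F 3) ^ d * u = bc k F f - X 1 * v - X 2 * w := by
        rw [h]; ring
      rw [this]
      exact I.sub_mem (I.sub_mem hf' (I.mul_mem_right _ h1)) (I.mul_mem_right _ h2)
    have h5 : (X 0 : O F 3) ^ d = X 0 ^ d * u * u' := by
      rw [mul_assoc, hu', mul_one]
    rw [h5]
    exact I.mul_mem_right _ h4
  let φ : (Fin d → F) →ₗ[F] (O F 3 ⧸ I) :=
    Fintype.linearCombination F (fun i : Fin d => (Ideal.Quotient.mk I ((X 0 : O F 3) ^ (i : ℕ))))
  have hφ : Function.Surjective φ := by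
    intro q
    obtain ⟨r, rfl⟩ := Ideal.Quotient.mk_surjective q
    refine ⟨fun i => coeff (e3 i 0 0) r, ?_⟩
    rw [Fintype.linearCombination_apply]
    have h6 : ∀ (c : F) (h : O F 3), c • Ideal.Quotient.mk I h = Ideal.Quotient.mk I (C c * h) := by
      intro c h
      rw [← smul_eq_C_mul]
      rfl
    simp only [h6]
    rw [← map_sum, Fin.sum_univ_eq_sum_range
      (fun i => C (coeff (e3 i 0 0) r) * (X 0 : O F 3) ^ i) d, eq_comm, Ideal.Quotient.eq]
    obtain ⟨u, v, w, h, _⟩ := decomp (r - ∑ j ∈ Finset.range d,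
      C (coeff (e3 j 0 0) r) * (X 0 : O F 3) ^ j) d (by
        intro i hi
        rw [map_sub, coeff_single_sum r d i hi, sub_self])
    rw [h]
    exact I.add_mem (I.add_mem (I.mul_mem_right _ h0) (I.mul_mem_right _ h1))
      (I.mul_mem_right _ h2)
  unfold len
  calc Module.length F (O F 3 ⧸ I) ≤ Module.length F (Fin d → F) :=
        Module.length_le_of_surjective φ hφ
    _ = d := by
        rw [Module.length_eq_finrank]
        simp

end Pool.Agent.DU5.LD
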